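import Pool.Agent.Helper33.DZ.Gen

namespace Pool.Agent.Helper33.DZ

theorem gen_span (hVT : ST_VT) (hST : ST_STUF) (m : ℕ) (hm : 2 ≤ m) (T : Finset ℕ) :
    VV m = Submodule.span ℚ (YY m T '' ((OO m : Finset ℕ) : Set ℕ)) := by
  have hV : VV m = Submodule.span ℚ (TT m '' ((OO m : Finset ℕ) : Set ℕ)) := by
    rw [hVT m hm, fin_OO m hm]
    congr 1
    ext x
    simp only [Finset.coe_image, Set.mem_image, Finset.mem_coe]
    constructor
    · rintro ⟨i, hi, rfl⟩
      exact ⟨2 * i + 1, ⟨i, hi, rfl⟩, fin_TT m i⟩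
    · rintro ⟨r, ⟨i, hi, rfl⟩, rfl⟩
      exact ⟨i, hi, (fin_TT m i).symm⟩
  rw [hV]
  have hY1 : YY m T 1 = TT m 1 := by rw [YY, TT, if_pos rfl, if_pos rfl]
  have hsame : ∀ r, ¬ (r ≤ m ∧ r ∉ T) → YY m T r = TT m r := by
    intro r hr
    rw [YY, TT]
    by_cases h1 : r = 1
    · rw [if_pos h1, if_pos h1]
    · rw [if_neg h1, if_neg h1, if_neg hr]
  have hbig : ∀ r, m < r → YY m T r = TT m r := fun r hr => hsame r (fun h => by omega)
  have hprod : ∀ r, r ∈ OO m → r ≠ 1 → r ≤ m ∧ r ∉ T →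
      YY m T r = TT m r + TT m (2 * m - r) + TT m 1 := by
    intro r hr h1 h2
    obtain ⟨hr1, k, hk⟩ := Finset.mem_filter.1 hr
    have hr2 := Finset.mem_range.1 hr1
    have hst := hST r (2 * m - r) (by omega) (by omega)
    rw [YY, if_neg h1, if_pos h2, TT, if_neg h1, TT, if_neg (by omega), TT, if_pos rfl, hst,
      show 2 * m - (2 * m - r) = r by omega, show r + (2 * m - r) = 2 * m by omega]
  have h1mem : (1 : ℕ) ∈ OO m := by
    rw [fin_OO m hm]
    exact Finset.mem_image.2 ⟨0, Finset.mem_range.2 (by omega), rfl⟩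
  have hmir : ∀ r, r ∈ OO m → r ≠ 1 → 2 * m - r ∈ OO m := by
    intro r hr h1
    obtain ⟨hr1, k, hk⟩ := Finset.mem_filter.1 hr
    have hr2 := Finset.mem_range.1 hr1
    exact Finset.mem_filter.2 ⟨Finset.mem_range.2 (by omega), m - k - 1, by omega⟩
  apply le_antisymm
  · rw [Submodule.span_le]
    rintro _ ⟨r, hr, rfl⟩
    rw [Finset.mem_coe] at hr
    set S := Submodule.span ℚ (YY m T '' ((OO m : Finset ℕ) : Set ℕ)) with hS
    have hin : ∀ r, r ∈ OO m → YY m T r ∈ S := fun r hr => Submodule.subset_span ⟨r, hr, rfl⟩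
    have h1S : TT m 1 ∈ S := by
      rw [← hY1]
      exact hin 1 h1mem
    by_cases h1 : r = 1
    · rw [h1]
      exact h1S
    by_cases h : r ≤ m ∧ r ∉ T
    · have key := hprod r hr h1 h
      rcases Nat.eq_or_lt_of_le h.1 with h2 | h2
      · have e1 : 2 * m - r = r := by omega
        rw [e1] at key
        have e : TT m r = (1 / 2 : ℚ) • (YY m T r - TT m 1) := by
          rw [key, Rat.smul_def]
          push_cast
          ring
        rw [SetLike.mem_coe, e]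
        exact S.smul_mem _ (S.sub_mem (hin r hr) h1S)
      · have h3 : YY m T (2 * m - r) = TT m (2 * m - r) := hbig _ (by omega)
        have e : TT m r = YY m T r - YY m T (2 * m - r) - TT m 1 := by
          rw [h3, key]
          ring
        rw [SetLike.mem_coe, e]
        exact S.sub_mem (S.sub_mem (hin r hr) (hin _ (hmir r hr h1))) h1S
    · rw [SetLike.mem_coe, ← hsame r h]
      exact hin r hr
  · rw [Submodule.span_le]
    rintro _ ⟨r, hr, rfl⟩
    rw [Finset.mem_coe] at hr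
    set S := Submodule.span ℚ (TT m '' ((OO m : Finset ℕ) : Set ℕ)) with hS
    have hin : ∀ r, r ∈ OO m → TT m r ∈ S := fun r hr => Submodule.subset_span ⟨r, hr, rfl⟩
    by_cases h1 : r = 1
    · rw [h1, SetLike.mem_coe, hY1]
      exact hin 1 h1mem
    by_cases h : r ≤ m ∧ r ∉ T
    · rw [SetLike.mem_coe, hprod r hr h1 h]
      exact S.add_mem (S.add_mem (hin r hr) (hin _ (hmir r hr h1))) (hin 1 h1mem)
    · rw [SetLike.mem_coe, hsame r h]
      exact hin r hr

theorem gen_main (hVT : ST_VT) (hST : ST_STUF) (hA : ST_ANTI) (hR : ST_REL) (hE : ST_EXIST)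
    (hL : ST_HLOW) (hD : ST_DIM)
    (m : ℕ) (hm : 2 ≤ m) (T C : Finset ℕ)
    (hC : ∀ r ∈ C, Odd r ∧ 5 ≤ r ∧ r + 3 ≤ 2 * m)
    (hinj : ∀ r ∈ C, ∀ r' ∈ C, lev m r = lev m r' → r = r')
    (hcard : C.card ≤ dS m)
    (hcov : ∀ r ∈ C, (r ≤ m ∨ 2 * m - r ∈ T) → ∀ l, 1 ≤ l → l < lev m r →
      ∃ r' ∈ C, lev m r' = l) :
    VV m = Submodule.span ℚ (YY m T '' ((OO m \ C : Finset ℕ) : Set ℕ)) ∧
    (C.card = dS m → (Module.finrank ℚ (VV m) + dS m = m - 1 ↔
      LinearIndependent ℚ (fun r : (OO m \ C : Finset ℕ) => YY m T r))) := by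
  have key := fin_drop (gen_span hVT hST m hm T)
    (gen_mem hST hA hR hE hL m hm T C hC hinj hcard hcov)
  refine ⟨key, fun hcd => fin_li _ _ key ?_⟩
  have h6 := (hD m).1
  have hsub : C ⊆ OO m := by
    intro r hr
    obtain ⟨h0, h1, h2⟩ := hC r hr
    exact Finset.mem_filter.mpr ⟨Finset.mem_range.mpr (by omega), h0⟩
  rw [Finset.card_sdiff_of_subset hsub, fin_card m hm, hcd]
  omega

end Pool.Agent.Helper33.DZ
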