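import Pool.Agent.Helper33.DZ.Stmts

namespace Pool.Agent.Helper33.DZ

noncomputable def pfR (p q : ℕ) (x y : ℝ) : ℝ := ∑ t ∈ Finset.range (p + q + 1),
    ((t.choose p : ℝ) / ((x + y) ^ (t + 1) * y ^ (p + q + 1 - t)) +
      (t.choose q : ℝ) / ((x + y) ^ (t + 1) * x ^ (p + q + 1 - t)))

theorem pfR_symm (p q : ℕ) (x y : ℝ) : pfR p q x y = pfR q p y x := by
  unfold pfR
  rw [add_comm q p]
  refine Finset.sum_congr rfl fun t _ => ?_
  rw [add_comm y x]
  ring

theorem pfR_zero (q : ℕ) (x y : ℝ) (hx : 0 < x) (hy : 0 < y) :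
    pfR 0 q x y = 1 / (x * y ^ (q + 1)) := by
  have hz : 0 < x + y := by positivity
  have h1 : pfR 0 q x y = ∑ t ∈ Finset.range (q + 1),
      1 / ((x + y) ^ (t + 1) * y ^ (q + 1 - t)) + 1 / ((x + y) ^ (q + 1) * x) := by
    unfold pfR
    rw [Finset.sum_add_distrib, zero_add]
    congr 1
    · refine Finset.sum_congr rfl fun t _ => ?_
      rw [Nat.choose_zero_right, Nat.cast_one]
    · rw [Finset.sum_eq_single q]
      · rw [Nat.choose_self, Nat.cast_one, show q + 1 - q = 1 by omega, pow_one]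
      · intro t ht hne
        have : t < q := by
          have := Finset.mem_range.1 ht
          omega
        rw [Nat.choose_eq_zero_of_lt this, Nat.cast_zero, zero_div]
      · intro h
        exact absurd (Finset.mem_range.2 (by omega)) h
  rw [h1]
  clear h1
  induction q with
  | zero =>
    rw [Finset.sum_range_one]
    simp only [zero_add, Nat.sub_zero, pow_one]
    field_simp
  | succ q ih =>
    rw [Finset.sum_range_succ']
    have h2 : ∑ t ∈ Finset.range (q + 1), 1 / ((x + y) ^ (t + 1 + 1) * y ^ (q + 1 + 1 - (t + 1))) =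
        1 / (x + y) * ∑ t ∈ Finset.range (q + 1), 1 / ((x + y) ^ (t + 1) * y ^ (q + 1 - t)) := by
      rw [Finset.mul_sum]
      refine Finset.sum_congr rfl fun t _ => ?_
      rw [show q + 1 + 1 - (t + 1) = q + 1 - t by omega]
      field_simp
      ring
    have h3 : ∑ t ∈ Finset.range (q + 1), 1 / ((x + y) ^ (t + 1) * y ^ (q + 1 - t)) =
        1 / (x * y ^ (q + 1)) - 1 / ((x + y) ^ (q + 1) * x) := by
      rw [← ih]
      ring
    rw [h2, h3]
    simp only [Nat.sub_zero, zero_add, pow_one]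
    field_simp
    ring

theorem pfR_succ (p q : ℕ) (x y : ℝ) (hx : 0 < x) (hy : 0 < y) :
    pfR (p + 1) (q + 1) x y = 1 / (x + y) * (pfR p (q + 1) x y + pfR (p + 1) q x y) := by
  have hz : 0 < x + y := by positivity
  unfold pfR
  rw [show p + 1 + (q + 1) + 1 = (p + q + 2) + 1 by ring, show p + (q + 1) + 1 = p + q + 2 by ring,
    show p + 1 + q + 1 = p + q + 2 by ring, Finset.sum_range_succ', ← Finset.sum_add_distrib,
    Finset.mul_sum]
  simp only [Nat.choose_zero_succ, Nat.cast_zero, zero_div, add_zero]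
  refine Finset.sum_congr rfl fun t _ => ?_
  rw [Nat.choose_succ_succ, Nat.choose_succ_succ,
    show p + q + 2 + 1 - (t + 1) = p + q + 2 - t by omega]
  push_cast
  field_simp
  ring

theorem pfR_eq (n : ℕ) : ∀ (p q : ℕ), p + q ≤ n → ∀ (x y : ℝ), 0 < x → 0 < y →
    1 / (x ^ (p + 1) * y ^ (q + 1)) = pfR p q x y := by
  induction n with
  | zero =>
    intro p q hn x y hx hy
    obtain rfl : p = 0 := by omega
    rw [pfR_zero q x y hx hy, zero_add, pow_one]
  | succ n ih =>
    intro p q hn x y hx hy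
    have hz : 0 < x + y := by positivity
    rcases p with _ | p
    · rw [pfR_zero q x y hx hy, zero_add, pow_one]
    rcases q with _ | q
    · rw [pfR_symm, pfR_zero _ y x hy hx, zero_add, pow_one, mul_comm]
    rw [pfR_succ p q x y hx hy, ← ih p (q + 1) (by omega) x y hx hy,
      ← ih (p + 1) q (by omega) x y hx hy]
    field_simp
    ring

theorem st_PF : ST_PF := by
  intro r s x y hr hs hx hy
  obtain ⟨p, rfl⟩ : ∃ p, r = p + 1 := ⟨r - 1, by omega⟩
  obtain ⟨q, rfl⟩ : ∃ q, s = q + 1 := ⟨s - 1, by omega⟩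
  rw [pfR_eq (p + q) p q le_rfl x y hx hy, pfR, show p + 1 + (q + 1) - 1 = p + q + 1 by omega,
    Finset.range_eq_Ico, Finset.sum_Ico_eq_sum_range, Nat.sub_zero]
  rw [← Finset.Ico_add_one_right_eq_Icc, Finset.sum_Ico_eq_sum_range,
    show p + q + 1 + 1 - 1 = p + q + 1 by omega]
  refine Finset.sum_congr rfl fun t ht => ?_
  have ht' := Finset.mem_range.1 ht
  rw [show 1 + t - 1 = t by omega, show p + 1 - 1 = p by omega, show q + 1 - 1 = q by omega,
    show p + 1 + (q + 1) - (1 + t) = p + q + 1 - t by omega, zero_add, add_comm 1 t]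

end Pool.Agent.Helper33.DZ
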