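import Pool.Agent.Helper33.DZ.Stmts

open MeasureTheory

namespace Pool.Agent.Helper33.DZ

theorem pos_prod {u : ℝ → ℝ} (hu : StrictMonoOn u (Set.Ioi 1)) (S : Finset ℝ)
    (hS : ∀ x ∈ S, 1 < x) (t : ℝ) (ht : 1 < t) (htS : t ∉ S) :
    0 < (∏ x ∈ S, (u t - u x)) * ∏ x ∈ S, (t - x) := by
  rw [← Finset.prod_mul_distrib]
  refine Finset.prod_pos fun x hx => ?_
  rcases lt_trichotomy t x with h | h | h
  · have := hu (Set.mem_Ioi.2 ht) (Set.mem_Ioi.2 (hS x hx)) h
    exact mul_pos_of_neg_of_neg (by linarith) (by linarith)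
  · exact absurd (h ▸ hx) htS
  · have := hu (Set.mem_Ioi.2 (hS x hx)) (Set.mem_Ioi.2 ht) h
    exact mul_pos (by linarith) (by linarith)

theorem st_POS : ST_POS := by
  intro W u G S σ _ _ hWp hmono hG hσ hS hpos hint h0
  have hσ0 : σ ≠ 0 := by rcases hσ with h | h <;> rw [h] <;> norm_num
  have hnn : ∀ t ∈ Set.Ioi (1 : ℝ), 0 ≤ σ * ((W t * ∏ x ∈ S, (u t - u x)) * G.eval t) := by
    intro t ht
    have ht' : 1 < t := ht
    by_cases htS : t ∈ S
    · have : ∏ x ∈ S, (u t - u x) = 0 := Finset.prod_eq_zero htS (sub_self _)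
      rw [this]
      simp
    · have h1 := pos_prod hmono S hS t ht' htS
      have h2 := hpos t ht'
      set A := ∏ x ∈ S, (u t - u x)
      set B := ∏ x ∈ S, (t - x)
      have hB : B ≠ 0 := by
        intro h
        rw [h, mul_zero] at h1
        exact lt_irrefl _ h1
      have hB2 : 0 < B ^ 2 := by positivity
      have h3 : σ * ((W t * A) * G.eval t) = W t * (σ * (G.eval t * B)) * (A * B) / B ^ 2 := by
        field_simp
      rw [h3]
      have := hWp t ht'
      positivity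
  have hi : ∫ t in Set.Ioi (1 : ℝ), σ * ((W t * ∏ x ∈ S, (u t - u x)) * G.eval t) = 0 := by
    rw [integral_const_mul, h0, mul_zero]
  have hae := (setIntegral_eq_zero_iff_of_nonneg_ae
    (ae_restrict_of_forall_mem measurableSet_Ioi hnn) (hint.const_mul σ)).1 hi
  have hfin : ((S : Set ℝ) ∪ (G.roots.toFinset : Set ℝ)).Finite :=
    S.finite_toSet.union (Finset.finite_toSet _)
  have hnull : volume ((S : Set ℝ) ∪ (G.roots.toFinset : Set ℝ)) = 0 := hfin.measure_zero _
  have hae2 : ∀ᵐ t ∂(volume.restrict (Set.Ioi (1 : ℝ))),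
      t ∉ ((S : Set ℝ) ∪ (G.roots.toFinset : Set ℝ)) :=
    ae_restrict_of_ae (measure_eq_zero_iff_ae_notMem.1 hnull)
  have hae3 : ∀ᵐ t ∂(volume.restrict (Set.Ioi (1 : ℝ))), t ∈ Set.Ioi (1 : ℝ) :=
    ae_restrict_mem measurableSet_Ioi
  have hF : ∀ᵐ t ∂(volume.restrict (Set.Ioi (1 : ℝ))), False := by
    filter_upwards [hae, hae2, hae3] with t h1 h2 h3
    have h3' : 1 < t := h3
    rw [Set.mem_union, not_or] at h2
    have htS : t ∉ S := fun h => h2.1 (Finset.mem_coe.2 h)
    have hGt : G.eval t ≠ 0 := by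
      intro h
      apply h2.2
      rw [Finset.mem_coe, Multiset.mem_toFinset]
      exact (Polynomial.mem_roots hG).2 h
    have h4 := pos_prod hmono S hS t h3' htS
    have h5 : ∏ x ∈ S, (u t - u x) ≠ 0 := by
      intro h
      rw [h, zero_mul] at h4
      exact lt_irrefl _ h4
    have h6 := (hWp t h3').ne'
    have h7 : σ * ((W t * ∏ x ∈ S, (u t - u x)) * G.eval t) = 0 := h1
    exact mul_ne_zero hσ0 (mul_ne_zero (mul_ne_zero h6 h5) hGt) h7
  rw [Filter.eventually_false_iff_eq_bot, ae_eq_bot, Measure.restrict_eq_zero,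
    Real.volume_Ioi] at hF
  exact ENNReal.top_ne_zero hF

end Pool.Agent.Helper33.DZ
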