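import Pool.Agent.Helper33.DZ.Defs

open Complex Polynomial

namespace Pool.Agent.Helper33.DZ

/-! ### Part 1 : double zeta values -/

def ST_SUMM : Prop := ∀ r s : ℕ, 2 ≤ r → 1 ≤ s →
  Summable (fun p : ℕ × ℕ => (1 : ℝ) /
    ((((p.1 + p.2 + 2 : ℕ) : ℝ) ^ r) * (((p.2 + 1 : ℕ) : ℝ) ^ s)))

def ST_STUF : Prop := ∀ r s : ℕ, 2 ≤ r → 2 ≤ s → zt r * zt s = dz r s + dz s r + zt (r + s)

def ST_PF : Prop := ∀ (r s : ℕ) (x y : ℝ), 1 ≤ r → 1 ≤ s → 0 < x → 0 < y →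
  1 / (x ^ r * y ^ s) = ∑ h ∈ Finset.Icc 1 (r + s - 1),
    (((h - 1).choose (r - 1) : ℝ) / ((x + y) ^ h * y ^ (r + s - h)) +
      ((h - 1).choose (s - 1) : ℝ) / ((x + y) ^ h * x ^ (r + s - h)))

def ST_SHUF : Prop := ∀ r s : ℕ, 2 ≤ r → 2 ≤ s →
  zt r * zt s = ∑ h ∈ Finset.Icc 2 (r + s - 1),
    (((h - 1).choose (r - 1) : ℝ) + ((h - 1).choose (s - 1) : ℝ)) * dz h (r + s - h)

def ST_EVEN : Prop := ∀ i j : ℕ, 1 ≤ i → 1 ≤ j →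
  ∃ q : ℚ, zt (2 * i) * zt (2 * j) = (q : ℝ) * zt (2 * i + 2 * j)

def ST_SUM : Prop := ∀ k : ℕ, 3 ≤ k → ∑ h ∈ Finset.Icc 2 (k - 1), dz h (k - h) = zt k

def ST_EULC : Prop := ∀ m : ℕ, 2 ≤ m →
  ∑ j ∈ Finset.Icc 1 (m - 1), zt (2 * j) * zt (2 * m - 2 * j) = ((m : ℝ) + 1 / 2) * zt (2 * m)

def ST_ODD : Prop := ∀ m : ℕ, 2 ≤ m →
  ∑ i ∈ Finset.range (m - 1), dz (2 * i + 3) (2 * m - 2 * i - 3) = zt (2 * m) / 4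

/-! ### Part 2 : even period polynomials -/

def ST_ANTI : Prop := ∀ (w : ℕ) (c : ℕ → ℚ), Per w c →
  (∀ a, a ≤ w → c (w - a) = -c a) ∧ hh w c 0 = 0 ∧ hh w c w = 0

def ST_ALG1 : Prop := ∀ (w : ℕ) (c : ℕ → ℚ), Even w → Per w c → ∀ a, a ≤ w →
  ∑ b ∈ Finset.range (a + 1), ((w - b).choose (a - b) : ℚ) *
    ((-1) ^ (b + 1) * (hh w c b + hh w c (w - b))) = 2 * hh w c a - hh w c (w - a)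

def ST_REL : Prop := ∀ (m : ℕ) (c : ℕ → ℚ), 2 ≤ m → Per (2 * m - 2) c →
  ∃ κ : ℚ, ∑ i ∈ Finset.range (m - 2),
    ((hh (2 * m - 2) c (2 * i + 2) / ((2 * m - 2).choose (2 * i + 2) : ℚ) : ℚ) : ℝ) *
      dz (2 * i + 3) (2 * m - 2 * i - 3) = (κ : ℝ) * zt (2 * m)

/-! ### Part 3 : spans -/

def ST_VT : Prop := ∀ m : ℕ, 2 ≤ m →
  VV m = Submodule.span ℚ (tt m '' (Finset.range (m - 1) : Set ℕ))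

def ST_VU : Prop := ∀ m : ℕ, 2 ≤ m →
  VV m = Submodule.span ℚ (uu m '' (Finset.range (m - 1) : Set ℕ))

/-- the existence theorem over `ℚ` -/
def ST_EXIST : Prop := ∀ (m : ℕ) (N : Finset ℕ), (∀ n ∈ N, Even n ∧ 2 ≤ n ∧ n < m - 1) →
  N.card ≤ dS m → ∀ n₀ ∈ N, ∃ c : ℕ → ℚ, Per (2 * m - 2) c ∧ c n₀ = 1 ∧
    ∀ n ∈ N, n ≠ n₀ → c n = 0

def ST_ELIMA : Prop := ∀ m : ℕ, 2 ≤ m → ∀ C : Finset ℕ,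
  (∀ i ∈ C, m < 2 * i + 1 ∧ i < m - 1) → C.card ≤ dS m → ∀ i ∈ C,
    uu m i ∈ Submodule.span ℚ (uu m '' ((Finset.range (m - 1) \ C : Finset ℕ) : Set ℕ))

def ST_ELIMB : Prop := ∀ m : ℕ, 2 ≤ m → ∀ j : ℕ, 1 ≤ j → j ≤ dS m →
  tt m (m - 1 - j) ∈ Submodule.span ℚ (tt m '' (Finset.range (m - 1 - dS m) : Set ℕ))

/-! ### Part 4 : periods of cusp forms -/

def ST_PRIM : Prop := ∀ g : ℂ → ℂ, DifferentiableOn ℂ g (Metric.ball 0 1) → g 0 = 0 →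
  ∃ P : ℂ → ℂ, DifferentiableOn ℂ P (Metric.ball 0 1) ∧ P 0 = 0 ∧
    ∀ q ∈ Metric.ball (0 : ℂ) 1, q * deriv P q = g q

def ST_INTG : Prop := ∀ g : ℂ → ℂ, DifferentiableOn ℂ g (Metric.ball 0 1) → g 0 = 0 →
  ∀ n : ℕ, MeasureTheory.IntegrableOn
    (fun t : ℝ => g ((Real.exp (-(2 * Real.pi * t)) : ℝ) : ℂ) * (t : ℂ) ^ n) (Set.Ioi 1)

def ST_EICH : Prop := ∀ (w : ℕ) (g : ℂ → ℂ), DifferentiableOn ℂ g (Metric.ball 0 1) → g 0 = 0 →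
  ∃ E : ℂ → ℂ → ℂ,
    (∀ z X : ℂ, 0 < z.im → HasDerivAt (fun z => E z X)
      (g (Complex.exp (2 * Real.pi * I * z)) * (X - z) ^ w) z) ∧
    (∀ z X : ℂ, 0 < z.im → E (z + 1) (X + 1) = E z X) ∧
    (∀ X : ℂ, E I X = -I * JJ w g X)

def ST_COC : Prop := ∀ (w : ℕ) (g : ℂ → ℂ), Even w → Cusp (w + 2) g →
  (∀ X : ℂ, X ≠ 0 → RR w g X = -X ^ w * RR w g (-1 / X)) ∧
  (∀ X : ℂ, X ≠ 0 → X + 1 ≠ 0 →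
    RR w g X = RR w g (X + 1) + (X + 1) ^ w * RR w g (X / (X + 1)))

def ST_EXPA : Prop := ∀ (w : ℕ) (g : ℂ → ℂ), Even w → DifferentiableOn ℂ g (Metric.ball 0 1) →
  g 0 = 0 → (∀ x : ℝ, 0 < x → x < 1 → (g (x : ℂ)).im = 0) →
  (∀ n, n ≤ w → cf w (ph g) (w - n) = -cf w (ph g) n) ∧
  (∀ X : ℂ, X ≠ 0 → RR w g X + RR w g (-X) =
    2 * I * ∑ n ∈ Finset.range (w + 1), ((cf w (ph g) n : ℝ) : ℂ) * X ^ n)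

def ST_PERC : Prop := ∀ (w : ℕ) (g : ℂ → ℂ), 2 ≤ w → Even w → Cusp (w + 2) g →
  Per w (cc w (ph g))

/-! ### Part 5 : signs -/

def ST_DESC : Prop := ∀ (w : ℕ) (N : Finset ℕ) (a : ℕ → ℝ) (e : ℝ), (e = 1 ∨ e = -1) →
  (∀ n ∈ N, 2 * n < w) → (∃ n ∈ N, a n ≠ 0) →
  GG w N a e ≠ 0 ∧
    ∀ S : Finset ℝ, (∀ x ∈ S, 1 < x ∧ (GG w N a e).IsRoot x) → S.card + 1 ≤ N.card

def ST_SGN : Prop := ∀ G : ℝ[X], G ≠ 0 → ∃ S : Finset ℝ, (∀ x ∈ S, 1 < x ∧ G.IsRoot x) ∧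
  ∃ σ : ℝ, (σ = 1 ∨ σ = -1) ∧ ∀ t : ℝ, 1 < t → 0 ≤ σ * (G.eval t * ∏ x ∈ S, (t - x))

def ST_POS : Prop := ∀ (W u : ℝ → ℝ) (G : ℝ[X]) (S : Finset ℝ) (σ : ℝ),
  ContinuousOn W (Set.Ioi 1) → ContinuousOn u (Set.Ioi 1) → (∀ t : ℝ, 1 < t → 0 < W t) →
  StrictMonoOn u (Set.Ioi 1) → G ≠ 0 → (σ = 1 ∨ σ = -1) → (∀ x ∈ S, 1 < x) →
  (∀ t : ℝ, 1 < t → 0 ≤ σ * (G.eval t * ∏ x ∈ S, (t - x))) →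
  MeasureTheory.IntegrableOn (fun t => (W t * ∏ x ∈ S, (u t - u x)) * G.eval t) (Set.Ioi 1) →
  ∫ t in Set.Ioi (1 : ℝ), (W t * ∏ x ∈ S, (u t - u x)) * G.eval t ≠ 0

/-! ### Part 6 : modular forms -/

def ST_EIS : Prop :=
  (∃ g : ℂ → ℂ, DifferentiableOn ℂ g (Metric.ball 0 1) ∧
    (∀ z : ℂ, 0 < z.im → g (Complex.exp (2 * Real.pi * I * (-1 / z))) =
      z ^ 4 * g (Complex.exp (2 * Real.pi * I * z))) ∧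
    ∀ q ∈ Metric.ball (0 : ℂ) 1,
      HasSum (fun n : ℕ => 240 * ((ArithmeticFunction.sigma 3 (n + 1) : ℕ) : ℂ) * q ^ (n + 1))
        (g q - 1)) ∧
  (∃ g : ℂ → ℂ, DifferentiableOn ℂ g (Metric.ball 0 1) ∧
    (∀ z : ℂ, 0 < z.im → g (Complex.exp (2 * Real.pi * I * (-1 / z))) =
      z ^ 6 * g (Complex.exp (2 * Real.pi * I * z))) ∧
    ∀ q ∈ Metric.ball (0 : ℂ) 1,
      HasSum (fun n : ℕ => -504 * ((ArithmeticFunction.sigma 5 (n + 1) : ℕ) : ℂ) * q ^ (n + 1))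
        (g q - 1))

def ST_MF4 : Prop := ∃ g : ℂ → ℂ, DifferentiableOn ℂ g (Metric.ball 0 1) ∧ g 0 = 1 ∧
  (∀ z : ℂ, 0 < z.im → g (Complex.exp (2 * Real.pi * I * (-1 / z))) =
      z ^ 4 * g (Complex.exp (2 * Real.pi * I * z))) ∧
  (∀ x : ℝ, 0 < x → x < 1 → (g (x : ℂ)).im = 0) ∧
  (∀ x : ℝ, 0 < x → x < 1 → 1 < (g (x : ℂ)).re) ∧
  (∀ x y : ℝ, 0 < x → x < y → y < 1 → (g (x : ℂ)).re < (g (y : ℂ)).re)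

def ST_MF6 : Prop := ∃ g : ℂ → ℂ, DifferentiableOn ℂ g (Metric.ball 0 1) ∧ g 0 = 1 ∧
  (∀ z : ℂ, 0 < z.im → g (Complex.exp (2 * Real.pi * I * (-1 / z))) =
      z ^ 6 * g (Complex.exp (2 * Real.pi * I * z))) ∧
  (∀ x : ℝ, 0 < x → x < 1 → (g (x : ℂ)).im = 0) ∧
  (∀ x : ℝ, 0 < x → x < 1 → (g (x : ℂ)).re < 1) ∧
  (∀ x y : ℝ, 0 < x → x < y → y < 1 → (g (y : ℂ)).re < (g (x : ℂ)).re) ∧
  (g ((Real.exp (-(2 * Real.pi)) : ℝ) : ℂ)).re = 0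

def ST_FORM : Prop := ∀ m a b d : ℕ, 4 * a + 6 * b + 12 = 2 * m → 3 * d ≤ a + 3 → 1 ≤ d →
  ∃ W u : ℝ → ℝ, ContinuousOn W (Set.Ioi 1) ∧ ContinuousOn u (Set.Ioi 1) ∧
    (∀ t : ℝ, 1 < t → 0 < W t) ∧ StrictMonoOn u (Set.Ioi 1) ∧
    ∀ P : ℝ[X], P.natDegree < d → ∃ g : ℂ → ℂ, Cusp (2 * m) g ∧
      ∀ t : ℝ, 1 < t → ph g t = W t * P.eval (u t)

def ST_DIM : Prop := ∀ m : ℕ, 6 * dS m ≤ m ∧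
  (0 < dS m → ∃ a b : ℕ, 4 * a + 6 * b + 12 = 2 * m ∧ 3 * dS m ≤ a + 3)

/-! ### Part 7 : existence -/

def ST_SURJ : Prop := ∀ (m : ℕ) (N : Finset ℕ), (∀ n ∈ N, Even n ∧ 2 ≤ n ∧ n < m - 1) →
  N.card ≤ dS m → ∀ n₀ ∈ N, ∃ c : ℕ → ℝ, Per (2 * m - 2) c ∧ c n₀ = 1 ∧
    ∀ n ∈ N, n ≠ n₀ → c n = 0

def ST_RAT : Prop := ∀ (w : ℕ) (N : Finset ℕ) (n₀ : ℕ),
  (∃ c : ℕ → ℝ, Per w c ∧ c n₀ = 1 ∧ ∀ n ∈ N, n ≠ n₀ → c n = 0) →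
  ∃ c : ℕ → ℚ, Per w c ∧ c n₀ = 1 ∧ ∀ n ∈ N, n ≠ n₀ → c n = 0

end Pool.Agent.Helper33.DZ
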