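import Pool.Agent.Helper15.DZ.SGN
import Pool.Agent.Helper2.DZ.HLOW
import Pool.Agent.Helper24.DZ.EICH
import Pool.Agent.Helper25.DZ.DIM
import Pool.Agent.Helper33.DZ.Gen2
import Pool.Agent.Helper33.DZ.PF
import Pool.Agent.Helper33.DZ.POS
import Pool.Agent.Helper35.DZ.SUM
import Pool.Agent.Helper38.DZ.FORM
import Pool.Agent.Helper52.DZ.ODD
import Pool.Agent.Helper52.DZ.VT
import Pool.Agent.Helper57.DZ.EIS
import Pool.Agent.Helper58.DZ.PERC
import Pool.Agent.Helper59.DZ.DESC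
import Pool.Agent.Helper61.DZ.SUMM
import Pool.Agent.Helper63.DZ.SURJ
import Pool.Agent.Helper67.DZ.ANTI
import Pool.Agent.Helper67.DZ.EVEN
import Pool.Agent.Helper67.DZ.INTG
import Pool.Agent.Helper67.DZ.PRIM
import Pool.Agent.Helper67.DZ.RAT
import Pool.Agent.Helper71.DZ.MF4
import Pool.Agent.Helper71.DZ.MF6
import Pool.Agent.Helper76.DZ.COC
import Pool.Agent.Helper77.DZ.EXPA
import Pool.Agent.Helper78.DZ.ALG1
import Pool.Agent.Helper80.DZ.EULC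
import Pool.Agent.Helper91.DZ.REL
import Pool.Agent.Helper94.DZ.SHUF
import Pool.Agent.Helper94.DZ.STUF

open Complex Polynomial

namespace Pool.Agent.Helper33.DZ

theorem a_SUMM : ST_SUMM := st_SUMM
theorem a_STUF : ST_STUF := st_STUF a_SUMM
theorem a_PF : ST_PF := st_PF
theorem a_SHUF : ST_SHUF := st_SHUF a_SUMM a_PF
theorem a_EVEN : ST_EVEN := st_EVEN
theorem a_SUM : ST_SUM := st_SUM a_SUMM
theorem a_EULC : ST_EULC := st_EULC
theorem a_ODD : ST_ODD := st_ODD a_STUF a_SUM a_EULC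
theorem a_ANTI : ST_ANTI := st_ANTI
theorem a_ALG1 : ST_ALG1 := st_ALG1 a_ANTI
theorem a_REL : ST_REL := st_REL a_STUF a_SHUF a_EVEN a_ANTI a_ALG1
theorem a_VT : ST_VT := st_VT a_ODD
theorem a_PRIM : ST_PRIM := st_PRIM
theorem a_INTG : ST_INTG := st_INTG
theorem a_EICH : ST_EICH := st_EICH a_PRIM a_INTG
theorem a_COC : ST_COC := st_COC a_EICH
theorem a_EXPA : ST_EXPA := st_EXPA a_INTG
theorem a_PERC : ST_PERC := st_PERC a_COC a_EXPA
theorem a_DESC : ST_DESC := st_DESC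
theorem a_SGN : ST_SGN := st_SGN
theorem a_POS : ST_POS := st_POS
theorem a_EIS : ST_EIS := st_EIS
theorem a_MF4 : ST_MF4 := st_MF4 a_EIS
theorem a_MF6 : ST_MF6 := st_MF6 a_EIS
theorem a_FORM : ST_FORM := st_FORM a_MF4 a_MF6
theorem a_DIM : ST_DIM := st_DIM
theorem a_SURJ : ST_SURJ := Pool.Agent.Helper63.DZ.st_SURJ a_FORM a_DIM a_PERC a_DESC a_SGN a_POS a_INTG
theorem a_RAT : ST_RAT := st_RAT
theorem a_EXIST : ST_EXIST := st_EXIST a_SURJ a_RAT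
theorem a_HLOW : ST_HLOW := st_HLOW a_ANTI a_ALG1

theorem all_G (m : ℕ) (hm : 2 ≤ m) (T C : Finset ℕ)
    (hC : ∀ r ∈ C, Odd r ∧ 5 ≤ r ∧ r + 3 ≤ 2 * m)
    (hinj : ∀ r ∈ C, ∀ r' ∈ C, lev m r = lev m r' → r = r')
    (hcard : C.card ≤ dS m)
    (hcov : ∀ r ∈ C, (r ≤ m ∨ 2 * m - r ∈ T) → ∀ l, 1 ≤ l → l < lev m r →
      ∃ r' ∈ C, lev m r' = l) :
    VV m = Submodule.span ℚ (YY m T '' ((OO m \ C : Finset ℕ) : Set ℕ)) ∧
    (C.card = dS m → (Module.finrank ℚ (VV m) + dS m = m - 1 ↔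
      LinearIndependent ℚ (fun r : (OO m \ C : Finset ℕ) => YY m T r))) :=
  gen_main a_VT a_STUF a_ANTI a_REL a_EXIST a_HLOW a_DIM m hm T C hC hinj hcard hcov

end Pool.Agent.Helper33.DZ
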