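import Mathlib

open Complex Polynomial

namespace Pool.Agent.Helper33.DZ

/-- the double zeta value, first argument on the larger variable (`r ≥ 2`, `s ≥ 1`) -/
noncomputable def dz (r s : ℕ) : ℝ :=
  ∑' p : ℕ × ℕ, (1 : ℝ) /
    ((((p.1 + p.2 + 2 : ℕ) : ℝ) ^ r) * (((p.2 + 1 : ℕ) : ℝ) ^ s))

/-- the zeta value (`k ≥ 2`) -/
noncomputable def zt (k : ℕ) : ℝ := ∑' n : ℕ, (1 : ℝ) / (((n + 1 : ℕ) : ℝ) ^ k)

/-- the coefficient of `X^a` in `∑ c n (1+X)^n` -/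
def hh {R : Type*} [CommRing R] (w : ℕ) (c : ℕ → R) (a : ℕ) : R :=
  ∑ n ∈ Finset.range (w + 1), ((n.choose a : ℕ) : R) * c n

/-- `c` is the coefficient sequence of an even period polynomial `∑ c n X^n` of degree `w`
with `c 0 = c w = 0` : `p(X) = p(X+1) - X^w p(1+1/X)` -/
structure Per {R : Type*} [CommRing R] (w : ℕ) (c : ℕ → R) : Prop where
  odd : ∀ n, Odd n → c n = 0
  zero : c 0 = 0
  big : ∀ n, w ≤ n → c n = 0
  rel : ∀ a, a ≤ w → c a = hh w c a - hh w c (w - a)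

/-- the span of the question Q1 in weight `2 m` -/
noncomputable def VV (m : ℕ) : Submodule ℚ ℝ :=
  Submodule.span ℚ (Set.range fun i : Fin (m - 1) => dz (2 * (i : ℕ) + 3) (2 * m - 2 * (i : ℕ) - 3))

/-- the dimension of the space of cusp forms of weight `2 m` -/
noncomputable def dS (m : ℕ) : ℕ :=
  Module.finrank ℂ (CuspForm (CongruenceSubgroup.Gamma 1) (2 * (m : ℤ)))

/-- `uu m i`, `r = 2 i + 1 = 1, 3, ..., 2m-3` : `ζ(2m)`, products for `r ≤ m`, `ζ(r, 2m-r)` for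
`r > m` -/
noncomputable def uu (m i : ℕ) : ℝ :=
  if i = 0 then zt (2 * m)
  else if 2 * i + 1 ≤ m then zt (2 * i + 1) * zt (2 * m - 2 * i - 1)
  else dz (2 * i + 1) (2 * m - 2 * i - 1)

/-- `tt m i`, `r = 2 i + 1 = 1, 3, ..., 2m-3` : `ζ(2m)` and `ζ(r, 2m-r)` -/
noncomputable def tt (m i : ℕ) : ℝ :=
  if i = 0 then zt (2 * m) else dz (2 * i + 1) (2 * m - 2 * i - 1)

/-- a cusp form of weight `k` as a function `g` of `q = exp (2 π i z)` -/
structure Cusp (k : ℕ) (g : ℂ → ℂ) : Prop where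
  diff : DifferentiableOn ℂ g (Metric.ball 0 1)
  zero : g 0 = 0
  inv : ∀ z : ℂ, 0 < z.im →
    g (Complex.exp (2 * Real.pi * I * (-1 / z))) = z ^ k * g (Complex.exp (2 * Real.pi * I * z))
  real : ∀ x : ℝ, 0 < x → x < 1 → (g (x : ℂ)).im = 0

/-- the form on the imaginary axis, `z = i t` -/
noncomputable def ph (g : ℂ → ℂ) (t : ℝ) : ℝ := (g ((Real.exp (-(2 * Real.pi * t)) : ℝ) : ℂ)).re

/-- the even periods with their binomial coefficients and signs -/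
noncomputable def cf (w : ℕ) (φ : ℝ → ℝ) (n : ℕ) : ℝ :=
  if Even n then (w.choose n : ℝ) * (-1) ^ (n / 2) *
    ∫ t in Set.Ioi (1 : ℝ), φ t * (t ^ n + (-1) ^ (w / 2 + 1) * t ^ (w - n)) else 0

/-- the same without `n = 0` and `n = w` -/
noncomputable def cc (w : ℕ) (φ : ℝ → ℝ) (n : ℕ) : ℝ := if 0 < n ∧ n < w then cf w φ n else 0

noncomputable def JJ (w : ℕ) (g : ℂ → ℂ) (X : ℂ) : ℂ :=
  ∫ t in Set.Ioi (1 : ℝ), g ((Real.exp (-(2 * Real.pi * t)) : ℝ) : ℂ) * (X - I * (t : ℂ)) ^ w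

/-- the period polynomial as a function of `X ≠ 0` -/
noncomputable def RR (w : ℕ) (g : ℂ → ℂ) (X : ℂ) : ℂ :=
  -I * (JJ w g X - X ^ w * JJ w g (-1 / X))

/-- the test polynomial -/
noncomputable def GG (w : ℕ) (N : Finset ℕ) (a : ℕ → ℝ) (e : ℝ) : ℝ[X] :=
  ∑ n ∈ N, Polynomial.C (a n) * (Polynomial.X ^ n + Polynomial.C e * Polynomial.X ^ (w - n))

end Pool.Agent.Helper33.DZ
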