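import Pool.Agent.Helper33.DZ.Defs

namespace Pool.Agent.Helper33.DZ

/-- the odd numbers `1, 3, ..., 2m-3` -/
def OO (m : ℕ) : Finset ℕ := (Finset.range (2 * m - 2)).filter Odd

/-- `ζ(2m)` for `r = 1`, `ζ(r) ζ(2m-r)` for `2 ≤ r ≤ m`, `ζ(r, 2m-r)` for `r > m` -/
noncomputable def FF (m r : ℕ) : ℝ :=
  if r = 1 then zt (2 * m) else if r ≤ m then zt r * zt (2 * m - r) else dz r (2 * m - r)

/-- `ζ(2m)` for `r = 1`, `ζ(r, 2m-r)` for the other `r` -/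
noncomputable def TT (m r : ℕ) : ℝ := if r = 1 then zt (2 * m) else dz r (2 * m - r)

end Pool.Agent.Helper33.DZ
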