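import Pool.Agent.Helper33.DZ.Defs2

namespace Pool.Agent.Helper33.DZ

/-- `ζ(2m)` for `r = 1`; `ζ(r) ζ(2m-r)` for `1 ≠ r ≤ m` not in `T`; otherwise `ζ(r, 2m-r)` -/
noncomputable def YY (m : ℕ) (T : Finset ℕ) (r : ℕ) : ℝ :=
  if r = 1 then zt (2 * m)
  else if r ≤ m ∧ r ∉ T then zt r * zt (2 * m - r) else dz r (2 * m - r)

/-- the level of `r` -/
def lev (m r : ℕ) : ℕ := if r ≤ m then (r - 3) / 2 else (2 * m - 1 - r) / 2

end Pool.Agent.Helper33.DZ
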