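import Pool.Agent.Helper33.DZ.Stmts2

namespace Pool.Agent.Helper33.DZ

theorem elimc_hh {w : ℕ} {c : ℕ → ℚ} (hw : Even w) (hc : Per w c)
    (hanti : ∀ a, a ≤ w → c (w - a) = -c a) {j d : ℕ} (hjd : j ≤ d)
    (hdw : 2 * d ≤ w) (h1 : c (2 * j) = 1) (h0 : ∀ i, 1 ≤ i → i ≤ d → i ≠ j → c (2 * i) = 0) :
    (∀ i, 1 ≤ i → i < j → hh w c (w - 2 * i) = 0) ∧ hh w c (w - 2 * j) = -1 := by
  have hval : ∀ n, n ≤ w → w - 2 * j < n → c n = 0 := by
    intro n hn hlt
    rcases Nat.even_or_odd n with he | ho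
    · obtain ⟨u, hu⟩ := hw
      obtain ⟨v, hv⟩ := he
      rcases Nat.eq_or_lt_of_le hn with h | h
      · exact hc.big n h.ge
      · have h3 : n = w - 2 * (u - v) := by omega
        rw [h3, hanti (2 * (u - v)) (by omega), h0 (u - v) (by omega) (by omega) (by omega),
          neg_zero]
    · exact hc.odd n ho
  constructor
  · intro i hi hij
    unfold hh
    refine Finset.sum_eq_zero fun n hn => ?_
    have hnw : n ≤ w := by
      have := Finset.mem_range.1 hn
      omega
    rcases lt_or_ge n (w - 2 * i) with h | h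
    · rw [Nat.choose_eq_zero_of_lt h, Nat.cast_zero, zero_mul]
    · rw [hval n hnw (by omega), mul_zero]
  · unfold hh
    rw [Finset.sum_eq_single (w - 2 * j)]
    · rw [Nat.choose_self, Nat.cast_one, one_mul, hanti _ (by omega), h1]
    · intro n hn hne
      have hnw : n ≤ w := by
        have := Finset.mem_range.1 hn
        omega
      rcases lt_or_gt_of_ne hne with h | h
      · rw [Nat.choose_eq_zero_of_lt h, Nat.cast_zero, zero_mul]
      · rw [hval n hnw h, mul_zero]
    · intro hn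
      exact absurd (Finset.mem_range.2 (by omega)) hn

theorem st_ELIMC (hA : ST_ANTI) (hR : ST_REL) (hE : ST_EXIST) (hD : ST_DIM) (hL : ST_HLOW) :
    ST_ELIMC := by
  classical
  intro m hm σ hσ
  set d := dS m with hd
  have h6 : 6 * d ≤ m := (hD m).1
  set C : Finset ℕ := (Finset.Icc 1 d).image σ with hC
  set S : Submodule ℚ ℝ :=
    Submodule.span ℚ (TT m '' ((OO m \ C : Finset ℕ) : Set ℕ)) with hS
  have hgen : ∀ r, r ∈ OO m → r ∉ C → TT m r ∈ S := fun r hr hrC =>
    Submodule.subset_span ⟨r, by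
      rw [Finset.mem_coe, Finset.mem_sdiff]
      exact ⟨hr, hrC⟩, rfl⟩
  have hOO : ∀ i, i < m - 1 → 2 * i + 1 ∈ OO m := fun i hi =>
    Finset.mem_filter.mpr ⟨Finset.mem_range.mpr (by omega), i, rfl⟩
  suffices H : ∀ t j, 1 ≤ j → j ≤ d → d - j = t → TT m (σ j) ∈ S from
    fun j h1 h2 => H (d - j) j h1 h2 rfl
  intro t
  induction t using Nat.strong_induction_on with
  | _ t ih =>
    intro j hj1 hjd ht
    have ih' : ∀ j', j < j' → j' ≤ d → TT m (σ j') ∈ S := fun j' h1 h2 =>
      ih (d - j') (by omega) j' (by omega) h2 rfl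
    set N : Finset ℕ := (Finset.Icc 1 d).image (fun i => 2 * i) with hN
    obtain ⟨c, hc, hc1, hc0⟩ := hE m N (by
      intro n hn
      obtain ⟨i, hi, rfl⟩ := Finset.mem_image.1 hn
      obtain ⟨hi1, hi2⟩ := Finset.mem_Icc.1 hi
      exact ⟨even_two_mul i, by omega, by omega⟩) (by
      refine Finset.card_image_le.trans ?_
      rw [Nat.card_Icc]
      omega) (2 * j) (Finset.mem_image.2 ⟨j, Finset.mem_Icc.2 ⟨hj1, hjd⟩, rfl⟩)
    obtain ⟨hanti, -, -⟩ := hA _ c hc
    have hw : Even (2 * m - 2) := ⟨m - 1, by omega⟩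
    have hc0' : ∀ i, 1 ≤ i → i ≤ d → i ≠ j → c (2 * i) = 0 := fun i h1 h2 h3 =>
      hc0 (2 * i) (Finset.mem_image.2 ⟨i, Finset.mem_Icc.2 ⟨h1, h2⟩, rfl⟩) (by omega)
    obtain ⟨hh0, hh1⟩ := elimc_hh hw hc hanti hjd (by omega) hc1 hc0'
    have hcl : ∀ i, i < j → 1 ≤ i → c (2 * m - 2 - 2 * i) = 0 := by
      intro i h1 h2
      rw [hanti (2 * i) (by omega), hc0' i h2 (by omega) (by omega), neg_zero]
    have hlow0 : ∀ i, 1 ≤ i → i < j → hh (2 * m - 2) c (2 * i + 2) = 0 := by
      intro i h1 h2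
      rw [hL _ c hw hc i h1 (by omega) (fun l hl1 hl2 => hcl l (by omega) hl1), hcl i h2 h1,
        mul_zero]
    have hlow1 : hh (2 * m - 2) c (2 * j + 2) = -((2 * m - 2 - 2 * j).choose 2 : ℚ) := by
      rw [hL _ c hw hc j hj1 (by omega) (fun l hl1 hl2 => hcl l hl2 hl1), hanti (2 * j) (by omega),
        hc1]
      ring
    obtain ⟨κ, hκ⟩ := hR m c hm hc
    have htt : ∀ i, dz (2 * i + 3) (2 * m - 2 * i - 3) = TT m (2 * i + 3) := by
      intro i
      rw [TT, if_neg (by omega)]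
      congr 1
    have htt0 : zt (2 * m) = TT m 1 := by rw [TT, if_pos rfl]
    simp only [htt, htt0] at hκ
    -- the index of σ j
    obtain ⟨i₀, hi₀r, hi₀, hi₀h⟩ : ∃ i₀, i₀ < m - 2 ∧ 2 * i₀ + 3 = σ j ∧
        hh (2 * m - 2) c (2 * i₀ + 2) ≠ 0 := by
      rcases hσ j hj1 hjd with h | h
      · refine ⟨j, by omega, by omega, ?_⟩
        rw [hlow1, neg_ne_zero]
        have : 0 < (2 * m - 2 - 2 * j).choose 2 := Nat.choose_pos (by omega)
        exact_mod_cast this.ne'
      · refine ⟨m - 2 - j, by omega, by omega, ?_⟩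
        rw [show 2 * (m - 2 - j) + 2 = 2 * m - 2 - 2 * j by omega, hh1]
        norm_num
    have hmem : i₀ ∈ Finset.range (m - 2) := Finset.mem_range.2 hi₀r
    rw [← Finset.add_sum_erase _ _ hmem] at hκ
    have hrest : ∑ i ∈ (Finset.range (m - 2)).erase i₀,
        ((hh (2 * m - 2) c (2 * i + 2) / ((2 * m - 2).choose (2 * i + 2) : ℚ) : ℚ) : ℝ) *
          TT m (2 * i + 3) ∈ S := by
      refine Submodule.sum_mem _ fun i hi => ?_
      obtain ⟨hine, hir⟩ := Finset.mem_erase.1 hi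
      have hi2 : i < m - 2 := Finset.mem_range.1 hir
      rw [← Rat.smul_def]
      by_cases hiC : 2 * i + 3 ∈ C
      · obtain ⟨l, hl, hle⟩ := Finset.mem_image.1 hiC
        obtain ⟨hl1, hl2⟩ := Finset.mem_Icc.1 hl
        rcases lt_trichotomy l j with h | h | h
        · have hz : hh (2 * m - 2) c (2 * i + 2) = 0 := by
            rcases hσ l hl1 hl2 with h' | h'
            · rw [show 2 * i + 2 = 2 * l + 2 by omega]
              exact hlow0 l hl1 h
            · rw [show 2 * i + 2 = 2 * m - 2 - 2 * l by omega]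
              exact hh0 l hl1 h
          rw [hz, zero_div, zero_smul]
          exact S.zero_mem
        · subst h
          omega
        · apply Submodule.smul_mem
          rw [← hle]
          exact ih' l h hl2
      · apply Submodule.smul_mem
        exact hgen _ (hOO (i + 1) (by omega)) hiC
    set q : ℚ := hh (2 * m - 2) c (2 * i₀ + 2) / ((2 * m - 2).choose (2 * i₀ + 2) : ℚ) with hq
    have hq0 : q ≠ 0 := by
      have hch : ((2 * m - 2).choose (2 * i₀ + 2) : ℚ) ≠ 0 := by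
        have : 0 < (2 * m - 2).choose (2 * i₀ + 2) := Nat.choose_pos (by omega)
        exact_mod_cast this.ne'
      exact div_ne_zero hi₀h hch
    have h1C : 1 ∉ C := by
      intro h
      obtain ⟨l, hl, hle⟩ := Finset.mem_image.1 h
      obtain ⟨hl1, hl2⟩ := Finset.mem_Icc.1 hl
      rcases hσ l hl1 hl2 with h' | h' <;> omega
    have hfin : q • TT m (σ j) ∈ S := by
      have e3 : q • TT m (σ j) = κ • TT m 1 -
          ∑ i ∈ (Finset.range (m - 2)).erase i₀,
            ((hh (2 * m - 2) c (2 * i + 2) / ((2 * m - 2).choose (2 * i + 2) : ℚ) : ℚ) : ℝ) *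
              TT m (2 * i + 3) := by
        rw [Rat.smul_def, Rat.smul_def, ← hκ, ← hi₀]
        ring
      rw [e3]
      exact Submodule.sub_mem _ (Submodule.smul_mem _ _ (hgen 1 (hOO 0 (by omega)) h1C)) hrest
    exact (Submodule.smul_mem_iff _ hq0).1 hfin

end Pool.Agent.Helper33.DZ
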