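import Pool.Agent.Helper33.DZ.Stmts
import Pool.Agent.Helper33.DZ.Defs2

open Complex Polynomial

namespace Pool.Agent.Helper33.DZ

theorem fin_li {v : ℕ → ℝ} {V : Submodule ℚ ℝ} {S : Finset ℕ} (d n : ℕ)
    (hV : V = Submodule.span ℚ (v '' (S : Set ℕ))) (hc : S.card + d = n) :
    Module.finrank ℚ V + d = n ↔ LinearIndependent ℚ (fun i : S => v i) := by
  have h1 : Set.range (fun i : S => v i) = v '' (S : Set ℕ) := by
    ext x
    constructor
    · rintro ⟨i, rfl⟩
      exact ⟨i, i.2, rfl⟩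
    · rintro ⟨i, hi, rfl⟩
      exact ⟨⟨i, hi⟩, rfl⟩
  rw [linearIndependent_iff_card_eq_finrank_span, h1, Set.finrank, ← hV, Fintype.card_coe]
  omega

theorem fin_drop {v : ℕ → ℝ} {V : Submodule ℚ ℝ} {S C : Finset ℕ}
    (hV : V = Submodule.span ℚ (v '' (S : Set ℕ)))
    (hC : ∀ i ∈ C, v i ∈ Submodule.span ℚ (v '' ((S \ C : Finset ℕ) : Set ℕ))) :
    V = Submodule.span ℚ (v '' ((S \ C : Finset ℕ) : Set ℕ)) := by
  apply le_antisymm
  · rw [hV, Submodule.span_le]
    rintro x ⟨i, hi, rfl⟩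
    by_cases h : i ∈ C
    · exact hC i h
    · exact Submodule.subset_span ⟨i, by simpa [h] using hi, rfl⟩
  · rw [hV]
    apply Submodule.span_mono
    rintro x ⟨i, hi, rfl⟩
    exact ⟨i, by simpa using (Finset.mem_sdiff.mp hi).1, rfl⟩

theorem fin_FF (m i : ℕ) : FF m (2 * i + 1) = uu m i := by
  unfold FF uu
  have h1 : (2 * i + 1 = 1) ↔ i = 0 := by omega
  have h2 : 2 * m - (2 * i + 1) = 2 * m - 2 * i - 1 := by omega
  simp only [h1, h2]

theorem fin_TT (m i : ℕ) : TT m (2 * i + 1) = tt m i := by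
  unfold TT tt
  have h1 : (2 * i + 1 = 1) ↔ i = 0 := by omega
  have h2 : 2 * m - (2 * i + 1) = 2 * m - 2 * i - 1 := by omega
  simp only [h1, h2]

theorem fin_OO (m : ℕ) (hm : 2 ≤ m) : OO m = (Finset.range (m - 1)).image (fun i => 2 * i + 1) := by
  ext r
  simp only [OO, Finset.mem_filter, Finset.mem_range, Finset.mem_image]
  constructor
  · rintro ⟨h, k, rfl⟩
    exact ⟨k, by omega, rfl⟩
  · rintro ⟨i, hi, rfl⟩
    exact ⟨by omega, i, rfl⟩

theorem fin_card (m : ℕ) (hm : 2 ≤ m) : (OO m).card = m - 1 := by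
  rw [fin_OO m hm, Finset.card_image_of_injective _ (fun a b h => by simpa using h),
    Finset.card_range]

theorem fin_A (hVU : ST_VU) (hE : ST_ELIMA) (hD : ST_DIM) (m : ℕ) (hm : 2 ≤ m) (C : Finset ℕ)
    (hC : ∀ r ∈ C, Odd r ∧ m < r ∧ r + 3 ≤ 2 * m) (hc : C.card ≤ dS m) :
    VV m = Submodule.span ℚ (FF m '' ((OO m \ C : Finset ℕ) : Set ℕ)) ∧
    (C.card = dS m → (Module.finrank ℚ (VV m) + dS m = m - 1 ↔
      LinearIndependent ℚ (fun r : (OO m \ C : Finset ℕ) => FF m r))) := by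
  have key : VV m = Submodule.span ℚ (FF m '' ((OO m \ C : Finset ℕ) : Set ℕ)) := by
    apply fin_drop
    · rw [hVU m hm, fin_OO m hm]
      congr 1
      ext x
      simp only [Finset.coe_image, Set.mem_image, Finset.mem_coe]
      constructor
      · rintro ⟨i, hi, rfl⟩
        exact ⟨2 * i + 1, ⟨i, hi, rfl⟩, fin_FF m i⟩
      · rintro ⟨r, ⟨i, hi, rfl⟩, rfl⟩
        exact ⟨i, hi, (fin_FF m i).symm⟩
    · intro r hr
      obtain ⟨⟨i, rfl⟩, h1, h2⟩ := hC r hr
      rw [fin_FF]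
      set C' : Finset ℕ := (Finset.range (m - 1)).filter (fun i => 2 * i + 1 ∈ C) with hC'
      have hcard : C'.card ≤ C.card := by
        have : (C'.image (fun i => 2 * i + 1)) ⊆ C := by
          intro x hx
          obtain ⟨j, hj, rfl⟩ := Finset.mem_image.mp hx
          exact (Finset.mem_filter.mp hj).2
        calc C'.card = (C'.image (fun i => 2 * i + 1)).card :=
              (Finset.card_image_of_injective _ (fun a b h => by simpa using h)).symm
          _ ≤ C.card := Finset.card_le_card this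
      have := hE m hm C' (fun j hj => by
        obtain ⟨hj1, hj2⟩ := Finset.mem_filter.mp hj
        exact ⟨(hC _ hj2).2.1, Finset.mem_range.mp hj1⟩) (hcard.trans hc) i
        (Finset.mem_filter.mpr ⟨Finset.mem_range.mpr (by omega), hr⟩)
      refine Submodule.span_mono ?_ this
      rintro x ⟨j, hj, rfl⟩
      have hj' := Finset.mem_sdiff.mp (Finset.mem_coe.mp hj)
      refine ⟨2 * j + 1, ?_, fin_FF m j⟩
      rw [Finset.mem_coe, Finset.mem_sdiff]
      refine ⟨?_, ?_⟩
      · rw [fin_OO m hm]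
        exact Finset.mem_image.mpr ⟨j, hj'.1, rfl⟩
      · intro h
        exact hj'.2 (Finset.mem_filter.mpr ⟨hj'.1, h⟩)
  refine ⟨key, fun hcd => fin_li _ _ key ?_⟩
  have hsub : C ⊆ OO m := by
    intro r hr
    obtain ⟨h0, h1, h2⟩ := hC r hr
    exact Finset.mem_filter.mpr ⟨Finset.mem_range.mpr (by omega), h0⟩
  have h6 := (hD m).1
  rw [Finset.card_sdiff_of_subset hsub, fin_card m hm, hcd]
  omega

theorem fin_B (hVT : ST_VT) (hE : ST_ELIMB) (hD : ST_DIM) (m : ℕ) (hm : 2 ≤ m) :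
    VV m = Submodule.span ℚ
      (TT m '' (((OO m).filter (fun r => r + 2 * dS m + 3 ≤ 2 * m) : Finset ℕ) : Set ℕ)) ∧
    (Module.finrank ℚ (VV m) + dS m = m - 1 ↔
      LinearIndependent ℚ
        (fun r : ((OO m).filter (fun r => r + 2 * dS m + 3 ≤ 2 * m) : Finset ℕ) => TT m r)) := by
  have h6 := (hD m).1
  have himg : (OO m).filter (fun r => r + 2 * dS m + 3 ≤ 2 * m) =
      (Finset.range (m - 1 - dS m)).image (fun i => 2 * i + 1) := by
    ext r
    simp only [OO, Finset.mem_filter, Finset.mem_range, Finset.mem_image]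
    constructor
    · rintro ⟨⟨h, k, rfl⟩, h2⟩
      exact ⟨k, by omega, rfl⟩
    · rintro ⟨i, hi, rfl⟩
      exact ⟨⟨by omega, i, rfl⟩, by omega⟩
  have hset : TT m '' (((Finset.range (m - 1 - dS m)).image (fun i => 2 * i + 1) : Finset ℕ) :
      Set ℕ) = tt m '' (Finset.range (m - 1 - dS m) : Set ℕ) := by
    ext x
    simp only [Finset.coe_image, Set.mem_image, Finset.mem_coe]
    constructor
    · rintro ⟨r, ⟨i, hi, rfl⟩, rfl⟩
      exact ⟨i, hi, (fin_TT m i).symm⟩
    · rintro ⟨i, hi, rfl⟩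
      exact ⟨2 * i + 1, ⟨i, hi, rfl⟩, fin_TT m i⟩
  have key : VV m = Submodule.span ℚ
      (TT m '' (((OO m).filter (fun r => r + 2 * dS m + 3 ≤ 2 * m) : Finset ℕ) : Set ℕ)) := by
    rw [himg, hset]
    apply le_antisymm
    · rw [hVT m hm, Submodule.span_le]
      rintro x ⟨i, hi, rfl⟩
      have hi' : i < m - 1 := Finset.mem_range.mp (Finset.mem_coe.mp hi)
      by_cases h : i < m - 1 - dS m
      · exact Submodule.subset_span ⟨i, Finset.mem_coe.mpr (Finset.mem_range.mpr h), rfl⟩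
      · have := hE m hm (m - 1 - i) (by omega) (by omega)
        rwa [show m - 1 - (m - 1 - i) = i by omega] at this
    · rw [hVT m hm]
      apply Submodule.span_mono
      apply Set.image_mono
      intro i hi
      have hi' : i < m - 1 - dS m := Finset.mem_range.mp (Finset.mem_coe.mp hi)
      exact Finset.mem_coe.mpr (Finset.mem_range.mpr (by omega))
  refine ⟨key, fin_li _ _ key ?_⟩
  rw [himg, Finset.card_image_of_injective _ (fun a b h => by simpa using h), Finset.card_range]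
  omega

theorem st_EXIST (h1 : ST_SURJ) (h2 : ST_RAT) : ST_EXIST := by
  intro m N hN hc n₀ hn₀
  exact h2 _ N n₀ (h1 m N hN hc n₀ hn₀)

end Pool.Agent.Helper33.DZ
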