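import Pool.Agent.Helper33.DZ.Stmts
import Pool.Agent.Helper33.DZ.Defs2

namespace Pool.Agent.Helper33.DZ

/-- the low coefficients of `p(1+X)` in terms of the high coefficients of `p` -/
def ST_HLOW : Prop := ∀ (w : ℕ) (c : ℕ → ℚ), Even w → Per w c → ∀ i : ℕ, 1 ≤ i →
  2 * i + 2 ≤ w → (∀ j, 1 ≤ j → j < i → c (w - 2 * j) = 0) →
  hh w c (2 * i + 2) = ((w - 2 * i).choose 2 : ℚ) * c (w - 2 * i)

def ST_ELIMC : Prop := ∀ m : ℕ, 2 ≤ m → ∀ σ : ℕ → ℕ,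
  (∀ i, 1 ≤ i → i ≤ dS m → σ i = 2 * i + 3 ∨ σ i = 2 * m - 1 - 2 * i) →
  ∀ j, 1 ≤ j → j ≤ dS m → TT m (σ j) ∈ Submodule.span ℚ
    (TT m '' ((OO m \ (Finset.Icc 1 (dS m)).image σ : Finset ℕ) : Set ℕ))

end Pool.Agent.Helper33.DZ
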