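import Pool.Agent.Helper33.DZ.Fin
import Pool.Agent.Helper33.DZ.Stmts2

open Complex Polynomial

namespace Pool.Agent.Helper33.DZ

theorem fin_C (hVT : ST_VT) (hE : ST_ELIMC) (hD : ST_DIM) (m : ℕ) (hm : 2 ≤ m) (σ : ℕ → ℕ)
    (hσ : ∀ i, 1 ≤ i → i ≤ dS m → σ i = 2 * i + 3 ∨ σ i = 2 * m - 1 - 2 * i) :
    VV m = Submodule.span ℚ
      (TT m '' ((OO m \ (Finset.Icc 1 (dS m)).image σ : Finset ℕ) : Set ℕ)) ∧
    (Module.finrank ℚ (VV m) + dS m = m - 1 ↔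
      LinearIndependent ℚ
        (fun r : (OO m \ (Finset.Icc 1 (dS m)).image σ : Finset ℕ) => TT m r)) := by
  classical
  have h6 := (hD m).1
  have hV : VV m = Submodule.span ℚ (TT m '' ((OO m : Finset ℕ) : Set ℕ)) := by
    rw [hVT m hm, fin_OO m hm]
    congr 1
    ext x
    simp only [Finset.coe_image, Set.mem_image, Finset.mem_coe]
    constructor
    · rintro ⟨i, hi, rfl⟩
      exact ⟨2 * i + 1, ⟨i, hi, rfl⟩, fin_TT m i⟩
    · rintro ⟨r, ⟨i, hi, rfl⟩, rfl⟩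
      exact ⟨i, hi, (fin_TT m i).symm⟩
  have key := fin_drop (C := (Finset.Icc 1 (dS m)).image σ) hV (by
    intro r hr
    obtain ⟨i, hi, rfl⟩ := Finset.mem_image.1 hr
    obtain ⟨hi1, hi2⟩ := Finset.mem_Icc.1 hi
    exact hE m hm σ hσ i hi1 hi2)
  refine ⟨key, fin_li _ _ key ?_⟩
  have hsub : (Finset.Icc 1 (dS m)).image σ ⊆ OO m := by
    intro r hr
    obtain ⟨i, hi, rfl⟩ := Finset.mem_image.1 hr
    obtain ⟨hi1, hi2⟩ := Finset.mem_Icc.1 hi
    rw [fin_OO m hm]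
    rcases hσ i hi1 hi2 with h | h
    · exact Finset.mem_image.2 ⟨i + 1, Finset.mem_range.2 (by omega), by omega⟩
    · exact Finset.mem_image.2 ⟨m - 1 - i, Finset.mem_range.2 (by omega), by omega⟩
  have hinj : Set.InjOn σ (Finset.Icc 1 (dS m) : Set ℕ) := by
    intro i hi j hj hij
    obtain ⟨hi1, hi2⟩ := Finset.mem_Icc.1 (Finset.mem_coe.1 hi)
    obtain ⟨hj1, hj2⟩ := Finset.mem_Icc.1 (Finset.mem_coe.1 hj)
    rcases hσ i hi1 hi2 with h | h <;> rcases hσ j hj1 hj2 with h' | h' <;> omega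
  rw [Finset.card_sdiff_of_subset hsub, Finset.card_image_of_injOn hinj, fin_card m hm,
    Nat.card_Icc]
  omega

end Pool.Agent.Helper33.DZ
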