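import Pool.Agent.Helper33.DZ.Fin2
import Pool.Agent.Helper33.DZ.Defs3

namespace Pool.Agent.Helper33.DZ

theorem gen_high {w : ℕ} {c : ℕ → ℚ} (hw : Even w) (hc : Per w c) {l : ℕ} (hlw : 2 * l ≤ w)
    (h0 : ∀ i, 1 ≤ i → i < l → c (w - 2 * i) = 0) :
    hh w c (w - 2 * l) = c (w - 2 * l) := by
  have hval : ∀ n, n ≤ w → w - 2 * l < n → c n = 0 := by
    intro n hn hlt
    rcases Nat.even_or_odd n with he | ho
    · obtain ⟨u, hu⟩ := hw
      obtain ⟨v, hv⟩ := he
      rcases Nat.eq_or_lt_of_le hn with h | h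
      · exact hc.big n h.ge
      · have h3 : n = w - 2 * (u - v) := by omega
        rw [h3]
        exact h0 (u - v) (by omega) (by omega)
    · exact hc.odd n ho
  unfold hh
  rw [Finset.sum_eq_single (w - 2 * l)]
  · rw [Nat.choose_self, Nat.cast_one, one_mul]
  · intro n hn hne
    have hnw : n ≤ w := by
      have := Finset.mem_range.1 hn
      omega
    rcases lt_or_gt_of_ne hne with h | h
    · rw [Nat.choose_eq_zero_of_lt h, Nat.cast_zero, zero_mul]
    · rw [hval n hnw h, mul_zero]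
  · intro hn
    exact absurd (Finset.mem_range.2 (by omega)) hn

theorem gen_sum (n : ℕ) (q e f g : ℕ → ℚ) (D Z : ℕ → ℝ) (Z1 : ℝ)
    (hD : ∀ i, i < n → D i = f i • Z i - e i • Z (n - 1 - i) - g i • Z1) :
    ∑ i ∈ Finset.range n, q i • D i =
      ∑ i ∈ Finset.range n, (f i * q i - e (n - 1 - i) * q (n - 1 - i)) • Z i -
        (∑ i ∈ Finset.range n, g i * q i) • Z1 := by
  have h1 : ∑ i ∈ Finset.range n, (e i * q i) • Z (n - 1 - i) =
      ∑ i ∈ Finset.range n, (e (n - 1 - i) * q (n - 1 - i)) • Z i := by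
    rw [← Finset.sum_range_reflect (fun i => (e (n - 1 - i) * q (n - 1 - i)) • Z i) n]
    refine Finset.sum_congr rfl fun i hi => ?_
    have hi' := Finset.mem_range.1 hi
    have : n - 1 - (n - 1 - i) = i := by omega
    simp only [this]
  have h2 : ∑ i ∈ Finset.range n, q i • D i =
      ∑ i ∈ Finset.range n, (f i * q i) • Z i - ∑ i ∈ Finset.range n, (e i * q i) • Z (n - 1 - i) -
        ∑ i ∈ Finset.range n, (g i * q i) • Z1 := by
    rw [← Finset.sum_sub_distrib, ← Finset.sum_sub_distrib]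
    refine Finset.sum_congr rfl fun i hi => ?_
    rw [hD i (Finset.mem_range.1 hi)]
    module
  rw [h2, h1, ← Finset.sum_sub_distrib, Finset.sum_smul]
  congr 1
  refine Finset.sum_congr rfl fun i _ => ?_
  rw [sub_smul]

theorem gen_mem (hST : ST_STUF) (hA : ST_ANTI) (hR : ST_REL) (hE : ST_EXIST) (hL : ST_HLOW)
    (m : ℕ) (hm : 2 ≤ m) (T C : Finset ℕ)
    (hC : ∀ r ∈ C, Odd r ∧ 5 ≤ r ∧ r + 3 ≤ 2 * m)
    (hinj : ∀ r ∈ C, ∀ r' ∈ C, lev m r = lev m r' → r = r')
    (hcard : C.card ≤ dS m)
    (hcov : ∀ r ∈ C, (r ≤ m ∨ 2 * m - r ∈ T) → ∀ l, 1 ≤ l → l < lev m r →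
      ∃ r' ∈ C, lev m r' = l) :
    ∀ r ∈ C, YY m T r ∈
      Submodule.span ℚ (YY m T '' ((OO m \ C : Finset ℕ) : Set ℕ)) := by
  classical
  set S : Submodule ℚ ℝ :=
    Submodule.span ℚ (YY m T '' ((OO m \ C : Finset ℕ) : Set ℕ)) with hS
  have hgen : ∀ r, r ∈ OO m → r ∉ C → YY m T r ∈ S := fun r hr hrC =>
    Submodule.subset_span ⟨r, by
      rw [Finset.mem_coe, Finset.mem_sdiff]
      exact ⟨hr, hrC⟩, rfl⟩
  have hOO : ∀ i, i < m - 1 → 2 * i + 1 ∈ OO m := fun i hi =>
    Finset.mem_filter.mpr ⟨Finset.mem_range.mpr (by omega), i, rfl⟩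
  have hlev : ∀ r ∈ C, 1 ≤ lev m r ∧ 2 * lev m r < m - 1 := by
    intro r hr
    obtain ⟨⟨k, hk⟩, h1, h2⟩ := hC r hr
    unfold lev
    split_ifs <;> omega
  suffices H : ∀ t r, r ∈ C → m - lev m r = t → YY m T r ∈ S from
    fun r h1 => H (m - lev m r) r h1 rfl
  intro t
  induction t using Nat.strong_induction_on with
  | _ t ih =>
    intro r₀ hr₀ ht
    obtain ⟨hj1, hj2⟩ := hlev r₀ hr₀
    have ih' : ∀ r ∈ C, lev m r₀ < lev m r → YY m T r ∈ S := fun r h1 h2 =>
      ih (m - lev m r) (by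
        have := (hlev r h1).2
        omega) r h1 rfl
    set j := lev m r₀ with hj
    set N : Finset ℕ := C.image (fun r => 2 * lev m r) with hN
    obtain ⟨c, hc, hc1, hc0⟩ := hE m N (by
      intro n hn
      obtain ⟨i, hi, rfl⟩ := Finset.mem_image.1 hn
      have := hlev i hi
      exact ⟨even_two_mul _, by omega, by omega⟩) (Finset.card_image_le.trans hcard) (2 * j)
      (Finset.mem_image.2 ⟨r₀, hr₀, rfl⟩)
    obtain ⟨hanti, -, -⟩ := hA _ c hc
    have hw : Even (2 * m - 2) := ⟨m - 1, by omega⟩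
    -- vanishing of the coefficients of the other levels
    have hcz : ∀ r ∈ C, lev m r ≠ j → c (2 * m - 2 - 2 * lev m r) = 0 := by
      intro r hr hne
      have := hlev r hr
      rw [hanti (2 * lev m r) (by omega),
        hc0 (2 * lev m r) (Finset.mem_image.2 ⟨r, hr, rfl⟩) (by omega), neg_zero]
    have hcj : c (2 * m - 2 - 2 * j) = -1 := by
      rw [hanti (2 * j) (by omega), hc1]
    -- the coefficients
    set q : ℕ → ℚ := fun i => hh (2 * m - 2) c (2 * i + 2) /
      ((2 * m - 2).choose (2 * i + 2) : ℚ) with hq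
    set e : ℕ → ℚ := fun i => if 2 * i + 3 < m ∧ 2 * i + 3 ∉ T then 1 else 0 with he
    set f : ℕ → ℚ := fun i => if 2 * i + 3 = m ∧ m ∉ T then 1 / 2 else 1 with hf
    set g : ℕ → ℚ := fun i => if 2 * i + 3 < m ∧ 2 * i + 3 ∉ T then 1 else
      if 2 * i + 3 = m ∧ m ∉ T then 1 / 2 else 0 with hg
    have hchoose : ∀ i, i < m - 2 → ((2 * m - 2).choose (2 * i + 2) : ℚ) ≠ 0 := by
      intro i hi
      have : 0 < (2 * m - 2).choose (2 * i + 2) := Nat.choose_pos (by omega)
      exact_mod_cast this.ne'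
    have hcsymm : ∀ i, i < m - 2 → (2 * m - 2).choose (2 * (m - 2 - 1 - i) + 2) =
        (2 * m - 2).choose (2 * i + 2) := by
      intro i hi
      apply Nat.choose_symm_of_eq_add
      omega
    have hD : ∀ i, i < m - 2 → dz (2 * i + 3) (2 * m - 2 * i - 3) =
        f i • YY m T (2 * i + 3) - e i • YY m T (2 * (m - 2 - 1 - i) + 3) - g i • YY m T 1 := by
      intro i hi
      have hst := hST (2 * i + 3) (2 * m - 2 * i - 3) (by omega) (by omega)
      rw [show 2 * i + 3 + (2 * m - 2 * i - 3) = 2 * m by omega] at hst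
      have e1 : 2 * (m - 2 - 1 - i) + 3 = 2 * m - 2 * i - 3 := by omega
      have e2 : 2 * m - (2 * m - 2 * i - 3) = 2 * i + 3 := by omega
      have e3 : 2 * m - (2 * i + 3) = 2 * m - 2 * i - 3 := by omega
      have hY1 : YY m T 1 = zt (2 * m) := by rw [YY, if_pos rfl]
      by_cases hT : 2 * i + 3 ≤ m ∧ 2 * i + 3 ∉ T
      · have hYi : YY m T (2 * i + 3) = zt (2 * i + 3) * zt (2 * m - 2 * i - 3) := by
          rw [YY, if_neg (by omega), if_pos hT, e3]
        rcases Nat.eq_or_lt_of_le hT.1 with h | h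
        · have hmT : m ∉ T := by rw [← h]; exact hT.2
          have h4 : 2 * m - 2 * i - 3 = 2 * i + 3 := by omega
          simp only [he, hf, hg]
          rw [if_pos ⟨h, hmT⟩, if_neg (by omega), if_neg (by omega), if_pos ⟨h, hmT⟩, hYi, hY1, hst,
            h4]
          simp only [Rat.smul_def]
          push_cast
          ring
        · have hYr : YY m T (2 * m - 2 * i - 3) = dz (2 * m - 2 * i - 3) (2 * i + 3) := by
            rw [YY, if_neg (by omega), if_neg (by omega), e2]
          simp only [he, hf, hg]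
          rw [if_neg (by omega), if_pos ⟨h, hT.2⟩, if_pos ⟨h, hT.2⟩, e1, hYi, hY1, hYr, hst]
          simp only [Rat.smul_def]
          push_cast
          ring
      · have hYi : YY m T (2 * i + 3) = dz (2 * i + 3) (2 * m - 2 * i - 3) := by
          rw [YY, if_neg (by omega), if_neg hT, e3]
        have ha : ¬ (2 * i + 3 < m ∧ 2 * i + 3 ∉ T) := fun h => hT ⟨h.1.le, h.2⟩
        have hb : ¬ (2 * i + 3 = m ∧ m ∉ T) := fun h => hT ⟨h.1.le, by rw [h.1]; exact h.2⟩
        simp only [he, hf, hg]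
        rw [if_neg ha, if_neg hb, if_neg ha, if_neg hb, hYi]
        simp
    obtain ⟨κ, hκ⟩ := hR m c hm hc
    have hκ' : ∑ i ∈ Finset.range (m - 2), q i • dz (2 * i + 3) (2 * m - 2 * i - 3) =
        κ • YY m T 1 := by
      rw [YY, if_pos rfl, Rat.smul_def, ← hκ]
      refine Finset.sum_congr rfl fun i _ => ?_
      rw [Rat.smul_def]
    rw [gen_sum (m - 2) q e f g _ (fun i => YY m T (2 * i + 3)) (YY m T 1) hD] at hκ'
    set K : ℕ → ℚ := fun i => f i * q i - e (m - 2 - 1 - i) * q (m - 2 - 1 - i) with hK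
    -- values of the coefficients at the elements of C
    have hKC : ∀ i, i < m - 2 → 2 * i + 3 ∈ C → lev m (2 * i + 3) ≤ j →
        ∃ ν : ℚ, ν ≠ 0 ∧ K i = ν * c (2 * m - 2 - 2 * lev m (2 * i + 3)) := by
      intro i hi hiC hle
      obtain ⟨hl1, hl2⟩ := hlev _ hiC
      set l := lev m (2 * i + 3) with hl
      have hch := hchoose i hi
      by_cases hp : 2 * i + 3 ≤ m ∨ 2 * m - (2 * i + 3) ∈ T
      · have hlow : ∀ l', 1 ≤ l' → l' < l → c (2 * m - 2 - 2 * l') = 0 := by
          intro l' h1 h2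
          obtain ⟨r', hr', hrl⟩ := hcov _ hiC hp l' h1 h2
          rw [← hrl]
          exact hcz r' hr' (by omega)
        by_cases hle' : 2 * i + 3 ≤ m
        · have hli : l = i := by
            rw [hl, lev, if_pos hle']
            omega
          have hez : e (m - 2 - 1 - i) = 0 := by
            simp only [he]
            rw [if_neg (by omega)]
          have hfz : f i ≠ 0 := by
            simp only [hf]
            split_ifs <;> norm_num
          refine ⟨f i * (((2 * m - 2 - 2 * l).choose 2 : ℚ) /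
            ((2 * m - 2).choose (2 * i + 2) : ℚ)), ?_, ?_⟩
          · refine mul_ne_zero hfz (div_ne_zero ?_ hch)
            have : 0 < (2 * m - 2 - 2 * l).choose 2 := Nat.choose_pos (by omega)
            exact_mod_cast this.ne'
          · simp only [hK, hq, hez, zero_mul, sub_zero]
            rw [← hli, hL _ c hw hc l hl1 (by omega) (fun l' h1 h2 => hlow l' h1 h2)]
            ring
        · have hT' : 2 * m - (2 * i + 3) ∈ T := hp.resolve_left hle'
          have hli : 2 * i + 2 = 2 * m - 2 - 2 * l := by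
            rw [hl, lev, if_neg hle']
            omega
          have hez : e (m - 2 - 1 - i) = 0 := by
            simp only [he]
            rw [if_neg]
            rintro ⟨-, h⟩
            apply h
            rwa [show 2 * (m - 2 - 1 - i) + 3 = 2 * m - (2 * i + 3) by omega]
          have hfz : f i = 1 := by
            simp only [hf]
            rw [if_neg (by omega)]
          refine ⟨1 / ((2 * m - 2).choose (2 * i + 2) : ℚ), one_div_ne_zero hch, ?_⟩
          simp only [hK, hq, hez, hfz, zero_mul, sub_zero, one_mul]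
          rw [hli, gen_high hw hc (by omega) hlow]
          ring
      · rw [not_or] at hp
        have hli : 2 * i + 2 = 2 * m - 2 - 2 * l := by
          rw [hl, lev, if_neg hp.1]
          omega
        have hez : e (m - 2 - 1 - i) = 1 := by
          simp only [he]
          rw [if_pos]
          refine ⟨by omega, ?_⟩
          rw [show 2 * (m - 2 - 1 - i) + 3 = 2 * m - (2 * i + 3) by omega]
          exact hp.2
        have hfz : f i = 1 := by
          simp only [hf]
          rw [if_neg (by omega)]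
        refine ⟨1 / ((2 * m - 2).choose (2 * i + 2) : ℚ), one_div_ne_zero hch, ?_⟩
        simp only [hK, hq, hez, hfz, one_mul]
        rw [hcsymm i hi, ← sub_div, ← hli]
        have := hc.rel (2 * i + 2) (by omega)
        rw [show 2 * m - 2 - (2 * i + 2) = 2 * (m - 2 - 1 - i) + 2 by omega] at this
        rw [this]
        ring
    -- the index of r₀
    obtain ⟨i₀, hi₀r, hi₀⟩ : ∃ i₀, i₀ < m - 2 ∧ 2 * i₀ + 3 = r₀ := by
      obtain ⟨⟨k, hk⟩, h1, h2⟩ := hC r₀ hr₀
      exact ⟨k - 1, by omega, by omega⟩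
    have h1C : 1 ∉ C := by
      intro h
      have := (hC 1 h).2.1
      omega
    have hY1S : YY m T 1 ∈ S := hgen 1 (hOO 0 (by omega)) h1C
    have hmem : i₀ ∈ Finset.range (m - 2) := Finset.mem_range.2 hi₀r
    rw [← Finset.add_sum_erase _ _ hmem] at hκ'
    have hrest : ∑ i ∈ (Finset.range (m - 2)).erase i₀,
        (f i * q i - e (m - 2 - 1 - i) * q (m - 2 - 1 - i)) • YY m T (2 * i + 3) ∈ S := by
      refine Submodule.sum_mem _ fun i hi => ?_
      obtain ⟨hine, hir⟩ := Finset.mem_erase.1 hi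
      have hi2 : i < m - 2 := Finset.mem_range.1 hir
      by_cases hiC : 2 * i + 3 ∈ C
      · rcases lt_or_ge j (lev m (2 * i + 3)) with h | h
        · exact Submodule.smul_mem _ _ (ih' _ hiC h)
        · have hne : lev m (2 * i + 3) ≠ j := by
            intro h'
            have := hinj _ hiC _ hr₀ h'
            omega
          obtain ⟨ν, -, hν⟩ := hKC i hi2 hiC h
          rw [hcz _ hiC hne, mul_zero] at hν
          have hν' : f i * q i - e (m - 2 - 1 - i) * q (m - 2 - 1 - i) = 0 := hν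
          rw [hν', zero_smul]
          exact S.zero_mem
      · exact Submodule.smul_mem _ _ (hgen _ (hOO (i + 1) (by omega)) hiC)
    obtain ⟨ν, hν0, hν⟩ := hKC i₀ hi₀r (by rw [hi₀]; exact hr₀) (by rw [hi₀])
    have hKi : K i₀ = -ν := by
      rw [hν, hi₀, ← hj, hcj]
      ring
    have hK0 : K i₀ ≠ 0 := by
      rw [hKi]
      exact neg_ne_zero.2 hν0
    have hfin : K i₀ • YY m T r₀ ∈ S := by
      have e3 : K i₀ • YY m T r₀ = κ • YY m T 1 +
          (∑ i ∈ Finset.range (m - 2), g i * q i) • YY m T 1 -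
          ∑ i ∈ (Finset.range (m - 2)).erase i₀,
            (f i * q i - e (m - 2 - 1 - i) * q (m - 2 - 1 - i)) • YY m T (2 * i + 3) := by
        rw [← hκ']
        simp only [hK, hi₀]
        ring
      rw [e3]
      exact S.sub_mem (S.add_mem (S.smul_mem _ hY1S) (S.smul_mem _ hY1S)) hrest
    exact (Submodule.smul_mem_iff _ hK0).1 hfin

end Pool.Agent.Helper33.DZ
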